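import Pool.Agent.helper51_dh.Final

open Filter Topology

namespace Pool.Agent.Results.MP_6ad661_an.Sandwich

open Pool.Agent.helper51DH

/-- Sandwich theorem for disjointly homogeneous atomic Banach lattices with symmetric basis. -/
theorem result {E : Type*} [NormedAddCommGroup E] [NormedSpace ℝ E] [CompleteSpace E]
    (L : AtomicLattice E) (hS : L.IsSymmetric) (hDH : L.DH) :
    ∃ p : ENNReal, 1 ≤ p ∧ (∀ x : E, Memℓp (L.coord x) p) ∧
      ∀ r : ENNReal, 1 ≤ r → (r < p ∨ r = 1) → ∀ y : ℕ → ℝ, Memℓp y r →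
        ∃ x : E, L.coord x = y := by
  apply L.sandwich hS
  intro x hx1 hx
  obtain ⟨φ, C, hφ, hC, h⟩ := AtomicLattice.DH.estimates L hS hDH x hx1 hx
  exact ⟨φ, C, hφ, hC, fun s a => (h s a).1⟩

end Pool.Agent.Results.MP_6ad661_an.Sandwich
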